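import Pool.Agent.H37.PD1

set_option autoImplicit false

open Pool.Agent.H37.PD

/-- Some computably bounded class is not represented by decompositions into antichains. -/
theorem Pool.Agent.Results.MP_233b81_lc.Antichains.result :
    ∃ P, CB P ∧ ∀ A R k, CPO A R →
      ¬ Rep P (Antichains A R k) ∧ ¬ RepMod A P (Antichains A R k) :=
  let ⟨P, h1, h2⟩ := exists_P
  ⟨P, h1, fun A _ _ h => not_or.1 fun h' => anti h (h2 A _ h')⟩
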